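import Mathlib
import Pool.Agent.V5helper90.ZL.StmA

/-!
# Job GL: the general linear group of an isotropic subspace is generated by dilations
-/

set_option autoImplicit false

namespace Pool.Agent.V5helper19.ZL

open Matrix Pool.Agent.V5helper90.ZL

/-- An idempotent matrix factors as `X * Y` with `Y * X = 1`. -/
theorem exists_factor {ι : Type} [Fintype ι] [DecidableEq ι] (P : Matrix ι ι ℂ)
    (hP : P * P = P) :
    ∃ (s : ℕ) (X : Matrix ι (Fin s) ℂ) (Y : Matrix (Fin s) ι ℂ), X * Y = P ∧ Y * X = 1 := by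
  classical
  let f : (ι → ℂ) →ₗ[ℂ] (ι → ℂ) := Matrix.toLin' P
  have hf : f ∘ₗ f = f := by
    change Matrix.toLin' P ∘ₗ Matrix.toLin' P = _
    rw [← Matrix.toLin'_mul, hP]
  let b := Module.finBasis ℂ (LinearMap.range f)
  let e := Pi.basisFun ℂ ι
  refine ⟨Module.finrank ℂ (LinearMap.range f),
    LinearMap.toMatrix b e (LinearMap.range f).subtype,
    LinearMap.toMatrix e b f.rangeRestrict, ?_, ?_⟩
  · rw [← LinearMap.toMatrix_comp]
    have : (LinearMap.range f).subtype ∘ₗ f.rangeRestrict = f := by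
      ext x : 1
      rfl
    rw [this]
    change LinearMap.toMatrix' (Matrix.toLin' P) = P
    exact LinearMap.toMatrix'_toLin' P
  · rw [← LinearMap.toMatrix_comp]
    have : f.rangeRestrict ∘ₗ (LinearMap.range f).subtype = LinearMap.id := by
      apply LinearMap.ext
      rintro ⟨x, y, rfl⟩
      apply Subtype.ext
      exact LinearMap.congr_fun hf y
    rw [this, LinearMap.toMatrix_id]

section
variable {ι : Type} [Fintype ι] [DecidableEq ι] {s : ℕ}

/-- The isometry given by an invertible matrix on the isotropic subspace. -/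
noncomputable def gam (P P' : Matrix ι ι ℂ) (X X' : Matrix ι (Fin s) ℂ)
    (Y Y' : Matrix (Fin s) ι ℂ) (A : Matrix (Fin s) (Fin s) ℂ) : Matrix ι ι ℂ :=
  (1 - P - P') + X * A * Y + X' * (A⁻¹)ᵀ * Y'

theorem gam_one {P P' : Matrix ι ι ℂ} {X X' : Matrix ι (Fin s) ℂ} {Y Y' : Matrix (Fin s) ι ℂ}
    (h1 : X * Y = P) (h2 : X' * Y' = P') : gam P P' X X' Y Y' 1 = 1 := by
  unfold gam
  simp only [inv_one, Matrix.transpose_one, Matrix.mul_one, h1, h2]
  abel

theorem gam_mul {P P' : Matrix ι ι ℂ} {X X' : Matrix ι (Fin s) ℂ} {Y Y' : Matrix (Fin s) ι ℂ}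
    (hP : P * P = P) (hP' : P' * P' = P') (hPP' : P * P' = 0) (hP'P : P' * P = 0)
    (h1 : X * Y = P) (h2 : X' * Y' = P') (h3 : Y * X = 1) (h4 : Y' * X' = 1)
    (A B : Matrix (Fin s) (Fin s) ℂ) :
    gam P P' X X' Y Y' (A * B) = gam P P' X X' Y Y' A * gam P P' X X' Y Y' B := by
  have hPX : P * X = X := by rw [← h1, Matrix.mul_assoc, h3, Matrix.mul_one]
  have hYP : Y * P = Y := by rw [← h1, ← Matrix.mul_assoc, h3, Matrix.one_mul]
  have hPX' : P' * X' = X' := by rw [← h2, Matrix.mul_assoc, h4, Matrix.mul_one]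
  have hYP' : Y' * P' = Y' := by rw [← h2, ← Matrix.mul_assoc, h4, Matrix.one_mul]
  have hP'X : P' * X = 0 := by rw [← hPX, ← Matrix.mul_assoc, hP'P, Matrix.zero_mul]
  have hPX'0 : P * X' = 0 := by rw [← hPX', ← Matrix.mul_assoc, hPP', Matrix.zero_mul]
  have hYP'0 : Y * P' = 0 := by rw [← hYP, Matrix.mul_assoc, hPP', Matrix.mul_zero]
  have hY'P0 : Y' * P = 0 := by rw [← hYP', Matrix.mul_assoc, hP'P, Matrix.mul_zero]
  have hYX' : Y * X' = 0 := by rw [← hPX', ← Matrix.mul_assoc, hYP'0, Matrix.zero_mul]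
  have hY'X : Y' * X = 0 := by rw [← hPX, ← Matrix.mul_assoc, hY'P0, Matrix.zero_mul]
  have hRX : (1 - P - P') * X = 0 := by
    rw [Matrix.sub_mul, Matrix.sub_mul, hPX, hP'X]; simp
  have hRX' : (1 - P - P') * X' = 0 := by
    rw [Matrix.sub_mul, Matrix.sub_mul, hPX', hPX'0]; simp
  have hYR : Y * (1 - P - P') = 0 := by
    rw [Matrix.mul_sub, Matrix.mul_sub, hYP, hYP'0]; simp
  have hYR' : Y' * (1 - P - P') = 0 := by
    rw [Matrix.mul_sub, Matrix.mul_sub, hYP', hY'P0]; simp
  have hRR : (1 - P - P') * (1 - P - P') = 1 - P - P' := by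
    simp only [Matrix.sub_mul, Matrix.mul_sub, Matrix.one_mul, Matrix.mul_one, hP, hP', hPP',
      hP'P]
    abel
  unfold gam
  rw [Matrix.mul_inv_rev, Matrix.transpose_mul]
  simp only [Matrix.add_mul, Matrix.mul_add, hRR]
  have e1 : (1 - P - P') * (X * B * Y) = 0 := by
    rw [Matrix.mul_assoc X, ← Matrix.mul_assoc, hRX, Matrix.zero_mul]
  have e2 : (1 - P - P') * (X' * B⁻¹ᵀ * Y') = 0 := by
    rw [Matrix.mul_assoc X', ← Matrix.mul_assoc, hRX', Matrix.zero_mul]
  have e3 : X * A * Y * (1 - P - P') = 0 := by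
    rw [Matrix.mul_assoc, hYR, Matrix.mul_zero]
  have e4 : X * A * Y * (X * B * Y) = X * (A * B) * Y := by
    calc X * A * Y * (X * B * Y) = X * A * (Y * X) * B * Y := by simp only [Matrix.mul_assoc]
      _ = _ := by rw [h3, Matrix.mul_one]; simp only [Matrix.mul_assoc]
  have e5 : X * A * Y * (X' * B⁻¹ᵀ * Y') = 0 := by
    calc X * A * Y * (X' * B⁻¹ᵀ * Y') = X * A * (Y * X') * B⁻¹ᵀ * Y' := by
          simp only [Matrix.mul_assoc]
      _ = _ := by rw [hYX']; simp
  have e6 : X' * A⁻¹ᵀ * Y' * (1 - P - P') = 0 := by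
    rw [Matrix.mul_assoc, hYR', Matrix.mul_zero]
  have e7 : X' * A⁻¹ᵀ * Y' * (X * B * Y) = 0 := by
    calc X' * A⁻¹ᵀ * Y' * (X * B * Y) = X' * A⁻¹ᵀ * (Y' * X) * B * Y := by
          simp only [Matrix.mul_assoc]
      _ = _ := by rw [hY'X]; simp
  have e8 : X' * A⁻¹ᵀ * Y' * (X' * B⁻¹ᵀ * Y') = X' * (A⁻¹ᵀ * B⁻¹ᵀ) * Y' := by
    calc X' * A⁻¹ᵀ * Y' * (X' * B⁻¹ᵀ * Y') = X' * A⁻¹ᵀ * (Y' * X') * B⁻¹ᵀ * Y' := by
          simp only [Matrix.mul_assoc]
      _ = _ := by rw [h4, Matrix.mul_one]; simp only [Matrix.mul_assoc]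
  rw [e1, e2, e3, e4, e5, e6, e7, e8]
  abel

end

theorem t_GL : S_GL := by
  intro ι _ _ Q P P' 𝒢 hQ hQd hP hP' hPP' hP'P hPQ hdil g hg hgP hgP' hfix
  obtain ⟨s, X, Y, h1, h3⟩ := exists_factor P hP
  have hQl : Q⁻¹ * Q = 1 := Matrix.nonsing_inv_mul Q hQd
  have hQr : Q * Q⁻¹ = 1 := Matrix.mul_nonsing_inv Q hQd
  have hQt : Q⁻¹ᵀ = Q⁻¹ := by rw [Matrix.transpose_nonsing_inv, hQ]
  obtain ⟨X', hX'⟩ : ∃ X' : Matrix ι (Fin s) ℂ, X' = Q⁻¹ * Yᵀ := ⟨_, rfl⟩
  obtain ⟨Y', hY'⟩ : ∃ Y' : Matrix (Fin s) ι ℂ, Y' = Xᵀ * Q := ⟨_, rfl⟩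
  have h2 : X' * Y' = P' := by
    calc X' * Y' = Q⁻¹ * (Yᵀ * Xᵀ) * Q := by rw [hX', hY']; simp only [Matrix.mul_assoc]
      _ = Q⁻¹ * (Pᵀ * Q) := by rw [← Matrix.transpose_mul, h1, Matrix.mul_assoc]
      _ = P' := by rw [hPQ, ← Matrix.mul_assoc, hQl, Matrix.one_mul]
  have h4 : Y' * X' = 1 := by
    calc Y' * X' = Xᵀ * (Q * Q⁻¹) * Yᵀ := by rw [hX', hY']; simp only [Matrix.mul_assoc]
      _ = (Y * X)ᵀ := by rw [hQr, Matrix.mul_one, Matrix.transpose_mul]
      _ = 1 := by rw [h3, Matrix.transpose_one]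
  have hPX : P * X = X := by rw [← h1, Matrix.mul_assoc, h3, Matrix.mul_one]
  have hPX' : P' * X' = X' := by rw [← h2, Matrix.mul_assoc, h4, Matrix.mul_one]
  have hQX' : Q * X' = Yᵀ := by rw [hX', ← Matrix.mul_assoc, hQr, Matrix.one_mul]
  have hQX : Q * X = Y'ᵀ := by rw [hY', Matrix.transpose_mul, Matrix.transpose_transpose, hQ]
  have hmul := gam_mul (X := X) (X' := X') (Y := Y) (Y' := Y') hP hP' hPP' hP'P h1 h2 h3 h4
  -- the dilations
  have hD : ∀ (a b : Fin s → ℂ), a ⬝ᵥ b = 1 → ∀ d : ℂ, d ≠ 0 →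
      gam P P' X X' Y Y' (1 + (d - 1) • vecMulVec a b) ∈ 𝒢 := by
    intro a b hab d hd
    have hu : P *ᵥ (X *ᵥ a) = X *ᵥ a := by rw [Matrix.mulVec_mulVec, hPX]
    have hv : P' *ᵥ (X' *ᵥ b) = X' *ᵥ b := by rw [Matrix.mulVec_mulVec, hPX']
    have hQv : Q *ᵥ (X' *ᵥ b) = b ᵥ* Y := by
      rw [Matrix.mulVec_mulVec, hQX', Matrix.mulVec_transpose]
    have hQu : Q *ᵥ (X *ᵥ a) = a ᵥ* Y' := by
      rw [Matrix.mulVec_mulVec, hQX, Matrix.mulVec_transpose]
    have huv : bil Q (X *ᵥ a) (X' *ᵥ b) = 1 := by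
      unfold bil
      rw [hQv, dotProduct_comm, ← Matrix.dotProduct_mulVec, Matrix.mulVec_mulVec, h3,
        Matrix.one_mulVec, dotProduct_comm, hab]
    have key := hdil _ _ hu hv huv d⁻¹ (inv_ne_zero hd)
    have hsq : vecMulVec a b * vecMulVec a b = vecMulVec a b := by
      rw [Matrix.vecMulVec_mul_vecMulVec, dotProduct_comm, hab, one_smul]
    have hinv : (1 + (d - 1) • vecMulVec a b)⁻¹ = 1 + (d⁻¹ - 1) • vecMulVec a b := by
      apply Matrix.inv_eq_right_inv
      rw [Matrix.add_mul, Matrix.mul_add, Matrix.one_mul, Matrix.mul_add, Matrix.mul_one,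
        Matrix.one_mul, Matrix.smul_mul, Matrix.mul_smul, hsq, smul_smul, add_assoc, ← add_smul,
        ← add_smul]
      have : (d⁻¹ - 1 + (d - 1 + (d - 1) * (d⁻¹ - 1))) = 0 := by field_simp; ring
      rw [this, zero_smul, add_zero]
    have : gam P P' X X' Y Y' (1 + (d - 1) • vecMulVec a b) =
        dil Q (X *ᵥ a) (X' *ᵥ b) d⁻¹ := by
      unfold gam dil
      rw [hinv, hQv, hQu, inv_inv]
      have e1 : vecMulVec (X *ᵥ a) (b ᵥ* Y) = X * vecMulVec a b * Y := by
        rw [Matrix.mul_vecMulVec, Matrix.vecMulVec_mul]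
      have e2 : vecMulVec (X' *ᵥ b) (a ᵥ* Y') = X' * (vecMulVec a b)ᵀ * Y' := by
        rw [Matrix.transpose_vecMulVec, Matrix.mul_vecMulVec, Matrix.vecMulVec_mul]
      rw [e1, e2]
      simp only [Matrix.mul_add, Matrix.add_mul, Matrix.mul_one, Matrix.transpose_add,
        Matrix.transpose_one, Matrix.transpose_smul, Matrix.mul_smul, Matrix.smul_mul, h1, h2]
      abel
    rw [this]
    exact key
  -- all invertible matrices
  have hall : ∀ A : Matrix (Fin s) (Fin s) ℂ, A.det ≠ 0 → gam P P' X X' Y Y' A ∈ 𝒢 := by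
    intro A hA
    refine Matrix.diagonal_transvection_induction_of_det_ne_zero
      (fun A => gam P P' X X' Y Y' A ∈ 𝒢) A hA ?_ ?_ ?_
    · intro D hDet
      have hD0 : ∀ i, D i ≠ 0 := by
        intro i hi
        apply hDet
        rw [Matrix.det_diagonal]
        exact Finset.prod_eq_zero (Finset.mem_univ i) hi
      have key : ∀ S : Finset (Fin s),
          gam P P' X X' Y Y' (diagonal (fun i => if i ∈ S then D i else 1)) ∈ 𝒢 := by
        intro S
        induction S using Finset.induction_on with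
        | empty =>
          simp only [Finset.notMem_empty, if_false]
          rw [Matrix.diagonal_one, gam_one h1 h2]
          exact 𝒢.one_mem
        | insert j S hj ih =>
          have hsplit : (diagonal (fun i => if i ∈ insert j S then D i else 1) :
              Matrix (Fin s) (Fin s) ℂ) =
              (1 + (D j - 1) • vecMulVec (Pi.single j 1) (Pi.single j 1)) *
                diagonal (fun i => if i ∈ S then D i else 1) := by
            have h : (1 + (D j - 1) • vecMulVec (Pi.single j 1) (Pi.single j 1) :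
                Matrix (Fin s) (Fin s) ℂ) = diagonal (fun i => if i = j then D j else 1) := by
              ext x y
              simp only [Matrix.add_apply, Matrix.smul_apply, Matrix.vecMulVec_apply,
                Matrix.diagonal_apply, Matrix.one_apply, Pi.single_apply, smul_eq_mul]
              by_cases hxy : x = y
              · subst hxy
                by_cases hx : x = j <;> simp [hx]
              · by_cases hx : x = j
                · subst hx
                  have : ¬ y = x := fun h => hxy h.symm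
                  simp [hxy, this]
                · simp [hxy, hx]
            rw [h, Matrix.diagonal_mul_diagonal]
            congr 1
            funext i
            by_cases hi : i = j
            · subst hi
              simp [hj]
            · simp [hi]
          rw [hsplit, hmul]
          refine 𝒢.mul_mem (hD _ _ ?_ _ (hD0 j)) ih
          simp
      have := key Finset.univ
      simpa using this
    · rintro ⟨i, j, hij, c⟩
      change gam P P' X X' Y Y' (Matrix.transvection i j c) ∈ 𝒢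
      have hsplit : (Matrix.transvection i j c : Matrix (Fin s) (Fin s) ℂ) =
          (1 + ((2 : ℂ) - 1) • vecMulVec (Pi.single i 1) (Pi.single i 1 + c • Pi.single j 1)) *
          (1 + ((1 / 2 : ℂ) - 1) • vecMulVec (Pi.single i 1) (Pi.single i 1)) := by
        have e : (vecMulVec (Pi.single i 1) (Pi.single i 1 + c • Pi.single j 1) :
            Matrix (Fin s) (Fin s) ℂ) * vecMulVec (Pi.single i 1) (Pi.single i 1) =
            vecMulVec (Pi.single i 1) (Pi.single i 1) := by
          rw [Matrix.vecMulVec_mul_vecMulVec]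
          have : ((Pi.single i 1 + c • Pi.single j 1 : Fin s → ℂ) ⬝ᵥ Pi.single i 1) = 1 := by
            simp [hij]
          rw [this, one_smul]
        rw [Matrix.add_mul, Matrix.mul_add, Matrix.one_mul, Matrix.mul_add, Matrix.mul_one,
          Matrix.one_mul, Matrix.smul_mul, Matrix.mul_smul, e]
        unfold Matrix.transvection
        have e2 : (vecMulVec (Pi.single i 1) (Pi.single i 1 + c • Pi.single j 1) :
            Matrix (Fin s) (Fin s) ℂ) = vecMulVec (Pi.single i 1) (Pi.single i 1) +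
              Matrix.single i j c := by
          ext x y
          simp only [Matrix.add_apply, Matrix.vecMulVec_apply, Pi.add_apply, Pi.smul_apply,
            Pi.single_apply, Matrix.single_apply, smul_eq_mul]
          by_cases hx : x = i <;> by_cases hy : y = j <;> simp [hx, hy, eq_comm] <;> tauto
        rw [e2]
        module
      rw [hsplit, hmul]
      refine 𝒢.mul_mem (hD _ _ ?_ _ (by norm_num)) (hD _ _ ?_ _ (by norm_num))
      · simp [hij]
      · simp
    · intro A B _ _ hA hB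
      change gam P P' X X' Y Y' (A * B) ∈ 𝒢
      rw [hmul]
      exact 𝒢.mul_mem hA hB
  -- the matrix of `g`
  have hinv : (Y' * g * X')ᵀ * (Y * g * X) = 1 := by
    have e1 : (Y' * g * X')ᵀ = X'ᵀ * gᵀ * (Q * X) := by
      rw [Matrix.transpose_mul, Matrix.transpose_mul, hQX, Matrix.mul_assoc]
    calc (Y' * g * X')ᵀ * (Y * g * X) = X'ᵀ * gᵀ * Q * (X * Y) * g * X := by
          rw [e1]; simp only [Matrix.mul_assoc]
      _ = X'ᵀ * gᵀ * Q * (P * g) * X := by rw [h1]; simp only [Matrix.mul_assoc]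
      _ = X'ᵀ * (gᵀ * Q * g) * (P * X) := by rw [hgP]; simp only [Matrix.mul_assoc]
      _ = (X'ᵀ * Q) * X := by rw [hg, hPX]
      _ = (Q * X')ᵀ * X := by rw [Matrix.transpose_mul, hQ]
      _ = 1 := by rw [hQX', Matrix.transpose_transpose, h3]
  have hdet : (Y * g * X).det ≠ 0 := by
    intro h
    have := congrArg Matrix.det hinv
    rw [Matrix.det_mul, h, mul_zero, Matrix.det_one] at this
    exact zero_ne_one this
  have hAinv : (Y * g * X)⁻¹ = (Y' * g * X')ᵀ := Matrix.inv_eq_left_inv hinv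
  have hgam : g = gam P P' X X' Y Y' (Y * g * X) := by
    unfold gam
    rw [hAinv, Matrix.transpose_transpose]
    have e1 : X * (Y * g * X) * Y = g * P := by
      calc X * (Y * g * X) * Y = (X * Y) * g * (X * Y) := by simp only [Matrix.mul_assoc]
        _ = g * P := by rw [h1, hgP, Matrix.mul_assoc, hP]
    have e2 : X' * (Y' * g * X') * Y' = g * P' := by
      calc X' * (Y' * g * X') * Y' = (X' * Y') * g * (X' * Y') := by simp only [Matrix.mul_assoc]
        _ = g * P' := by rw [h2, hgP', Matrix.mul_assoc, hP']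
    have e3 : g * (1 - P - P') = 1 - P - P' := by
      have f1 : P * (1 - P - P') = 0 := by
        rw [Matrix.mul_sub, Matrix.mul_sub, hP, hPP', Matrix.mul_one]; simp
      have f2 : P' * (1 - P - P') = 0 := by
        rw [Matrix.mul_sub, Matrix.mul_sub, hP', hP'P, Matrix.mul_one]; simp
      apply Matrix.ext_of_mulVec_single
      intro i
      rw [← Matrix.mulVec_mulVec]
      apply hfix
      · rw [Matrix.mulVec_mulVec, f1, Matrix.zero_mulVec]
      · rw [Matrix.mulVec_mulVec, f2, Matrix.zero_mulVec]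
    rw [e1, e2]
    have e4 : g * (1 - P - P') = g - g * P - g * P' := by
      rw [Matrix.mul_sub, Matrix.mul_sub, Matrix.mul_one]
    rw [← e3, e4]
    abel
  rw [hgam]
  exact hall _ hdet

end Pool.Agent.V5helper19.ZL
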